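import Mathlib
import Pool.Agent.H57.Cong

namespace Pool.Agent.Results.MP_cec948_nt.Fails

open Finset Pool.Agent.H57.Cong

/-- the first sum -/
def S (p : ℕ) : ℚ := ∑ k ∈ range p, bn (-1 / 4) k * bn (-1 / 2) k / (-3) ^ k

/-- the second sum -/
def U (p : ℕ) : ℚ := ∑ k ∈ range p, bn (-1 / 4) k * bn (-1 / 2) k / 81 ^ k

/-- The first congruence of part (a) fails, already among primes above 5. -/
theorem result : ¬ ∀ p : ℕ, p.Prime → 5 < p → p % 4 = 1 → Cong p 2 (S p) ((-1) ^ ((p - 1) / 4) * U p) := by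
  intro h
  have := h 13 (by norm_num) (by norm_num) (by norm_num)
  refine not_cong (by norm_num) ?_ this
  decide +kernel

end Pool.Agent.Results.MP_cec948_nt.Fails
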